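import Mathlib

/-!
Basic definitions and lemmas on the loneliness gap of a finite set of speeds.
-/

namespace Pool.Agent.Lib.MP_64d5df_nt

/-- Distance from a real number to the nearest integer. -/
noncomputable def distInt (x : ℝ) : ℝ := |x - (round x : ℝ)|

/-- The loneliness gap of a finite set of speeds:
the supremum over real `t` of the minimum over `v ∈ V` of the distance of `t * v`
to the nearest integer. -/
noncomputable def kappa (V : Finset ℕ) : ℝ :=
  ⨆ t : ℝ, ⨅ v : V, distInt (t * ((v : ℕ) : ℝ))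

/-- `V` is an `n`-set: a set of `n` distinct positive integers. -/
def IsSpeedSet (n : ℕ) (V : Finset ℕ) : Prop :=
  V.card = n ∧ ∀ v ∈ V, 0 < v

/-- The translate `a + V` of `V` by `a`. -/
def shiftBy (a : ℕ) (V : Finset ℕ) : Finset ℕ :=
  V.image (fun v => a + v)

lemma distInt_nonneg (x : ℝ) : 0 ≤ distInt x := abs_nonneg _

lemma distInt_le_half (x : ℝ) : distInt x ≤ 1 / 2 := abs_sub_round x

lemma distInt_le (x : ℝ) (z : ℤ) : distInt x ≤ |x - (z : ℝ)| := round_le x z

lemma le_distInt_iff {x c : ℝ} : c ≤ distInt x ↔ ∀ z : ℤ, c ≤ |x - (z : ℝ)| := by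
  constructor
  · intro h z
    exact h.trans (distInt_le x z)
  · intro h
    exact h _

/-- If `c ≤ x - k ≤ 1 - c` for an integer `k` and `0 ≤ c`, then `x` is at distance at least `c`
from the integers. -/
lemma le_distInt_of_mem {x c : ℝ} (k : ℤ) (h1 : c ≤ x - k) (h2 : x - k ≤ 1 - c) :
    c ≤ distInt x := by
  rw [le_distInt_iff]
  intro z
  rcases le_or_gt z k with h | h
  · have hz : (z : ℝ) ≤ k := by exact_mod_cast h
    exact le_trans (by linarith) (le_abs_self _)
  · have hz : (k : ℝ) + 1 ≤ z := by exact_mod_cast h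
    exact le_trans (by linarith) (neg_le_abs _)

lemma bddBelow_range (V : Finset ℕ) (t : ℝ) :
    BddBelow (Set.range fun v : V => distInt (t * ((v : ℕ) : ℝ))) :=
  ⟨0, by rintro _ ⟨v, rfl⟩; exact distInt_nonneg _⟩

lemma inf_le_half (V : Finset ℕ) (t : ℝ) :
    (⨅ v : V, distInt (t * ((v : ℕ) : ℝ))) ≤ 1 / 2 := by
  rcases isEmpty_or_nonempty V with h | ⟨⟨v⟩⟩
  · rw [Real.iInf_of_isEmpty]; norm_num
  · exact (ciInf_le (bddBelow_range V t) v).trans (distInt_le_half _)

lemma bddAbove_range (V : Finset ℕ) :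
    BddAbove (Set.range fun t : ℝ => ⨅ v : V, distInt (t * ((v : ℕ) : ℝ))) :=
  ⟨1 / 2, by rintro _ ⟨t, rfl⟩; exact inf_le_half V t⟩

lemma kappa_le_half (V : Finset ℕ) : kappa V ≤ 1 / 2 := ciSup_le (inf_le_half V)

lemma kappa_le {V : Finset ℕ} {c : ℝ} (h : ∀ t : ℝ, ∃ v ∈ V, distInt (t * (v : ℝ)) ≤ c) :
    kappa V ≤ c := by
  apply ciSup_le
  intro t
  obtain ⟨v, hv, hle⟩ := h t
  exact (ciInf_le (bddBelow_range V t) ⟨v, hv⟩).trans hle

lemma le_kappa {V : Finset ℕ} (hV : V.Nonempty) {c : ℝ} (t : ℝ)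
    (h : ∀ v ∈ V, c ≤ distInt (t * (v : ℝ))) : c ≤ kappa V := by
  have : Nonempty V := hV.to_subtype
  have h1 : c ≤ ⨅ v : V, distInt (t * ((v : ℕ) : ℝ)) := le_ciInf fun v => h v.1 v.2
  exact h1.trans (le_ciSup (bddAbove_range V) t)

/-- Scaling invariance of the loneliness gap. -/
lemma kappa_image_mul (V : Finset ℕ) {c : ℕ} (hc : 0 < c) :
    kappa (V.image (fun v => c * v)) = kappa V := by
  have hc' : (c : ℝ) ≠ 0 := by positivity
  rcases V.eq_empty_or_nonempty with rfl | hV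
  · simp
  apply le_antisymm
  · apply ciSup_le
    intro t
    apply le_kappa hV (t * c)
    intro v hv
    have hmem : c * v ∈ V.image (fun v => c * v) := Finset.mem_image_of_mem _ hv
    have := ciInf_le (bddBelow_range (V.image (fun v => c * v)) t) ⟨c * v, hmem⟩
    refine this.trans (le_of_eq ?_)
    congr 1
    push_cast
    ring
  · apply ciSup_le
    intro t
    apply le_kappa (hV.image _) (t / c)
    intro w hw
    obtain ⟨v, hv, rfl⟩ := Finset.mem_image.mp hw
    have := ciInf_le (bddBelow_range V t) ⟨v, hv⟩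
    refine this.trans (le_of_eq ?_)
    congr 1
    push_cast
    field_simp

lemma kappa_mono {V W : Finset ℕ} (hV : V.Nonempty) (h : V ⊆ W) : kappa W ≤ kappa V := by
  apply ciSup_le
  intro t
  apply le_kappa hV t
  intro v hv
  exact ciInf_le (bddBelow_range W t) ⟨v, h hv⟩

/-- All speeds odd: the gap is `1/2`. -/
lemma kappa_of_odd {V : Finset ℕ} (hV : V.Nonempty) (h : ∀ v ∈ V, Odd v) : kappa V = 1 / 2 := by
  apply le_antisymm (kappa_le_half V)
  apply le_kappa hV (1 / 2)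
  intro v hv
  obtain ⟨k, rfl⟩ := h v hv
  apply le_distInt_of_mem (k : ℤ)
  · push_cast; linarith
  · push_cast; linarith

/-- Dirichlet: if `V ⊇ {1,…,n}` then the gap is at most `1/(n+1)`. -/
lemma kappa_le_of_Icc_subset {V : Finset ℕ} {n : ℕ} (hn : 0 < n)
    (h : Finset.Icc 1 n ⊆ V) : kappa V ≤ 1 / ((n : ℝ) + 1) := by
  apply kappa_le
  intro t
  obtain ⟨j, k, hk0, hkn, hle⟩ := Real.exists_int_int_abs_mul_sub_le t hn
  lift k to ℕ using hk0.le with k'
  refine ⟨k', h ?_, ?_⟩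
  · rw [Finset.mem_Icc]; constructor <;> [exact_mod_cast hk0; exact_mod_cast hkn]
  · refine (distInt_le _ j).trans ?_
    rw [mul_comm]
    exact_mod_cast hle

/-- The gap of `{1,…,n}` is exactly `1/(n+1)`. -/
lemma kappa_Icc {n : ℕ} (hn : 0 < n) : kappa (Finset.Icc 1 n) = 1 / ((n : ℝ) + 1) := by
  apply le_antisymm (kappa_le_of_Icc_subset hn (Finset.Subset.refl _))
  apply le_kappa ⟨1, by simp; omega⟩ (1 / ((n : ℝ) + 1))
  intro v hv
  rw [Finset.mem_Icc] at hv
  have hpos : (0 : ℝ) < (n : ℝ) + 1 := by positivity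
  have h1 : (1 : ℝ) ≤ v := by exact_mod_cast hv.1
  have h2 : (v : ℝ) ≤ n := by exact_mod_cast hv.2
  apply le_distInt_of_mem 0
  · rw [Int.cast_zero, sub_zero, one_div_mul_eq_div]
    exact div_le_div_of_nonneg_right h1 hpos.le
  · rw [Int.cast_zero, sub_zero, one_div_mul_eq_div, div_le_iff₀ hpos, sub_mul, one_div,
      inv_mul_cancel₀ hpos.ne']
    linarith

lemma mem_shiftBy {a : ℕ} {V : Finset ℕ} {w : ℕ} :
    w ∈ shiftBy a V ↔ ∃ v ∈ V, a + v = w := by
  simp [shiftBy]

lemma card_shiftBy (a : ℕ) (V : Finset ℕ) : (shiftBy a V).card = V.card := by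
  apply Finset.card_image_of_injective
  intro x y h
  exact Nat.add_left_cancel h

lemma isSpeedSet_shiftBy {n a : ℕ} {V : Finset ℕ} (h : IsSpeedSet n V) :
    IsSpeedSet n (shiftBy a V) := by
  refine ⟨(card_shiftBy a V).trans h.1, ?_⟩
  intro w hw
  obtain ⟨v, hv, rfl⟩ := mem_shiftBy.mp hw
  have := h.2 v hv
  omega

lemma shiftBy_shiftBy (a b : ℕ) (V : Finset ℕ) : shiftBy a (shiftBy b V) = shiftBy (a + b) V := by
  rw [shiftBy, shiftBy, shiftBy, Finset.image_image]
  apply Finset.image_congr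
  intro w _
  simp only [Function.comp]
  ring

lemma IsSpeedSet.nonempty {n : ℕ} {V : Finset ℕ} (h : IsSpeedSet n V) (hn : 1 ≤ n) :
    V.Nonempty := by
  rw [← Finset.card_pos, h.1]; omega

/-- Two speeds of different parity: the gap is at most `1/2 - 1/(2(u+v))`. -/
lemma kappa_le_of_pair {V : Finset ℕ} {u v : ℕ} (hu : u ∈ V) (hv : v ∈ V)
    (hodd : Odd (u + v)) : kappa V ≤ 1 / 2 - 1 / (2 * ((u : ℝ) + v)) := by
  have hs : (0 : ℝ) < (u : ℝ) + v := by
    have : 0 < u + v := hodd.pos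
    exact_mod_cast this
  apply kappa_le
  intro t
  by_contra hcon
  push Not at hcon
  have h1 := hcon u hu
  have h2 := hcon v hv
  set δ : ℝ := 1 / (2 * ((u : ℝ) + v)) with hδ
  -- fractional decomposition
  have key : ∀ x : ℝ, 1 / 2 - δ < distInt x → |x - (⌊x⌋ : ℝ) - 1 / 2| < δ := by
    intro x hx
    have ha := hx.trans_le (distInt_le x ⌊x⌋)
    have hb := hx.trans_le (distInt_le x (⌊x⌋ + 1))
    have hf0 : (0 : ℝ) ≤ x - ⌊x⌋ := by linarith [Int.floor_le x]
    have hf1 : x - ⌊x⌋ < 1 := by linarith [Int.lt_floor_add_one x]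
    rw [abs_of_nonneg hf0] at ha
    rw [abs_of_neg (by push_cast; linarith)] at hb
    push_cast at hb
    rw [abs_lt]
    constructor <;> linarith
  have k1 := key _ h1
  have k2 := key _ h2
  set A : ℤ := ⌊t * (u : ℝ)⌋
  set B : ℤ := ⌊t * (v : ℝ)⌋
  obtain ⟨m, hm⟩ := hodd
  have hm' : (u : ℝ) + v = 2 * m + 1 := by exact_mod_cast hm
  -- combine
  have h3 : |(v : ℝ) * (t * u - A - 1 / 2) - u * (t * v - B - 1 / 2)| < 1 / 2 := by
    rcases Nat.eq_zero_or_pos u with hu0 | hu0
    · subst hu0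
      have hvpos : (0 : ℝ) < v := by simpa using hs
      have : |(v : ℝ) * (t * (0 : ℕ) - A - 1 / 2) - (0 : ℕ) * (t * v - B - 1 / 2)|
          = v * |t * (0 : ℕ) - A - 1 / 2| := by
        rw [Nat.cast_zero, zero_mul, sub_zero, abs_mul, abs_of_pos hvpos]
      rw [this]
      calc (v : ℝ) * |t * (0 : ℕ) - A - 1 / 2| < v * δ := by
            exact mul_lt_mul_of_pos_left k1 hvpos
        _ = 1 / 2 := by
            rw [hδ, Nat.cast_zero, zero_add]; field_simp
    · have hupos : (0 : ℝ) < u := by exact_mod_cast hu0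
      calc |(v : ℝ) * (t * u - A - 1 / 2) - u * (t * v - B - 1 / 2)|
          ≤ |(v : ℝ) * (t * u - A - 1 / 2)| + |u * (t * v - B - 1 / 2)| := abs_sub _ _
        _ = v * |t * u - A - 1 / 2| + u * |t * v - B - 1 / 2| := by
            rw [abs_mul, abs_mul, Nat.abs_cast, Nat.abs_cast]
        _ < v * δ + u * δ := by
            apply add_lt_add_of_le_of_lt
            · exact mul_le_mul_of_nonneg_left k1.le (Nat.cast_nonneg v)
            · exact mul_lt_mul_of_pos_left k2 hupos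
        _ = 1 / 2 := by
            rw [hδ]; field_simp; ring
  have h4 : (v : ℝ) * (t * u - A - 1 / 2) - u * (t * v - B - 1 / 2)
      = ((u * B - v * A + u - m : ℤ) : ℝ) - 1 / 2 := by
    push_cast
    have : (v : ℝ) = 2 * m + 1 - u := by linarith
    linear_combination (1 / 2 : ℝ) * (-1) * this
  rw [h4] at h3
  set Z : ℤ := u * B - v * A + u - m
  rw [abs_lt] at h3
  have h5 : (0 : ℝ) < Z := by linarith [h3.1]
  have h6 : (Z : ℝ) < 1 := by linarith [h3.2]
  have h5' : 0 < Z := by exact_mod_cast h5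
  have h6' : Z < 1 := by exact_mod_cast h6
  omega

end Pool.Agent.Lib.MP_64d5df_nt
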